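import Mathlib
import Pool.Agent.Lib.MP_0ea763_nt.FourCore
import Pool.Agent.Lib.MP_0ea763_nt_Five.Core

set_option autoImplicit false
set_option maxHeartbeats 4000000

/-!
Infinitely many squares `T^2` such that `T^2 + b` and `T^2 + c` are both sums of two squares.
-/

namespace Pool.Agent.Lib.MP_0ea763_nt_Sq

open Pool.Agent.Lib.MP_0ea763_nt (Sq2 pell_large infinite_of_large)
open Pool.Agent.Lib.MP_0ea763_nt_Five (pell_family)

/-- arbitrarily large `T` with `T^2 + b` and `T^2 + c` sums of two squares -/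
def Both (b c : ℤ) : Prop := ∀ L : ℤ, ∃ T : ℤ, L < T ∧ Sq2 (T ^ 2 + b) ∧ Sq2 (T ^ 2 + c)

lemma Both.symm {b c : ℤ} (h : Both b c) : Both c b := fun L => by
  obtain ⟨T, h1, h2, h3⟩ := h L
  exact ⟨T, h1, h3, h2⟩

/-- one condition only -/
lemma one (c : ℤ) (L : ℤ) : ∃ T : ℤ, L < T ∧ Sq2 (T ^ 2 + c) := by
  -- `B` of the parity of `c + 1`, `T = (B^2 - c + 1)/2`
  obtain ⟨B, hB, hpar⟩ : ∃ B : ℤ, 2 * |L| + |c| + 3 < B ∧ (B - c) % 2 = 1 := by
    by_cases h : (2 * |L| + |c| + 4 - c) % 2 = 1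
    · exact ⟨2 * |L| + |c| + 4, by omega, h⟩
    · exact ⟨2 * |L| + |c| + 5, by omega, by omega⟩
  have h2 : (B ^ 2 - c + 1) % 2 = 0 := by
    have h3 : (B ^ 2 - B) % 2 = 0 := by
      rcases Int.even_or_odd' B with ⟨k, hk | hk⟩
      · rw [hk]; ring_nf; omega
      · rw [hk]; ring_nf; omega
    omega
  obtain ⟨T, hT⟩ : ∃ T, B ^ 2 - c + 1 = 2 * T := ⟨(B ^ 2 - c + 1) / 2, by omega⟩
  refine ⟨T, ?_, T - 1, B, by linear_combination (-1 : ℤ) * hT⟩
  have := le_abs_self L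
  have := abs_nonneg L
  have := le_abs_self c
  have := abs_nonneg c
  nlinarith

lemma both_sq (a c : ℤ) : Both (a ^ 2) c := fun L => by
  obtain ⟨T, h1, h2⟩ := one c L
  exact ⟨T, h1, ⟨T, a, rfl⟩, h2⟩

lemma both_self (b : ℤ) : Both b b := fun L => by
  obtain ⟨T, h1, h2⟩ := one b L
  exact ⟨T, h1, h2, h2⟩

/-- one nondegenerate solution gives infinitely many -/
lemma start {b c : ℤ} (T A B C D : ℤ) (h1 : T ^ 2 + b = A ^ 2 + B ^ 2)
    (h2 : T ^ 2 + c = C ^ 2 + D ^ 2) (hpos : 0 < (T - A) * (T - C))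
    (hns : ¬ IsSquare ((T - A) * (T - C))) (hB : B ≠ 0) : Both b c := by
  intro L
  rcases lt_or_ge 0 (T - A) with h | h
  · have hm : 0 < T - C := (mul_pos_iff_of_pos_left h).mp hpos
    obtain ⟨S, B1, B2, e0, -, e1, e2⟩ := pell_family T (T - A) (T - C) B D b c 1 h hm one_pos hns hB
      (by linear_combination h1) (by linear_combination h2) L
    exact ⟨S, e0, ⟨_, _, e1⟩, ⟨_, _, e2⟩⟩
  · have h' : 0 < -T - -A := by
      rcases h.lt_or_eq with h | h
      · linarith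
      · rw [h, zero_mul] at hpos; exact absurd hpos (lt_irrefl 0)
    have hp : 0 < (-T - -A) * (-T - -C) := by linarith [hpos, show (-T - -A) * (-T - -C) = (T - A) * (T - C) by ring]
    have hm : 0 < -T - -C := (mul_pos_iff_of_pos_left h').mp hp
    obtain ⟨S, B1, B2, e0, -, e1, e2⟩ := pell_family (-T) (-T - -A) (-T - -C) B D b c 1 h' hm one_pos
      (by rw [show (-T - -A) * (-T - -C) = (T - A) * (T - C) by ring]; exact hns) hB
      (by linear_combination h1) (by linear_combination h2) L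
    exact ⟨S, e0, ⟨_, _, e1⟩, ⟨_, _, e2⟩⟩

/-- `x (x + u)` is not a square for `u = 1, 2` unless it is `≤ 0` -/
lemma nsq_shift {x u : ℤ} (hu : u = 1 ∨ u = 2) (h : 0 < x * (x + u)) : ¬ IsSquare (x * (x + u)) := by
  rintro ⟨k, hk⟩
  obtain ⟨m, hm0, hm⟩ : ∃ m : ℤ, 0 ≤ m ∧ m * m = k * k := ⟨|k|, abs_nonneg k, abs_mul_abs_self k⟩
  rw [← hm] at hk
  rcases lt_or_ge 0 x with hx | hx
  · have h1 : x < m := by
      by_contra hc
      have : m * m ≤ x * x := by nlinarith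
      rcases hu with rfl | rfl <;> nlinarith
    rcases hu with rfl | rfl
    · nlinarith
    · have h2 : (x + 1) ^ 2 = m * m + 1 := by linear_combination hk
      have h3 : x + 1 ≤ m := by omega
      nlinarith
  · have hy : 0 < -(x + u) := by
      rcases hu with rfl | rfl <;> nlinarith
    have h1 : -(x + u) < m := by
      by_contra hc
      have : m * m ≤ (x + u) * (x + u) := by nlinarith
      rcases hu with rfl | rfl <;> nlinarith
    rcases hu with rfl | rfl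
    · nlinarith
    · have h2 : (x + 1) ^ 2 = m * m + 1 := by linear_combination hk
      nlinarith

/-- the two special pairs -/
lemma special1 : Both (-4) (-3) := by
  -- `34^2 - 4 = 24^2 + 24^2`, `34^2 - 3 = 33^2 + 8^2`
  refine start 34 24 24 33 8 (by norm_num) (by norm_num) (by norm_num) ?_ (by norm_num)
  rintro ⟨k, hk⟩
  have h1 : k < 4 := by nlinarith
  have h2 : -4 < k := by nlinarith
  interval_cases k <;> omega

lemma special2 : Both (-1) 3 := by
  -- `17^2 - 1 = 12^2 + 12^2`, `17^2 + 3 = 6^2 + 16^2`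
  refine start 17 12 12 6 16 (by norm_num) (by norm_num) (by norm_num) ?_ (by norm_num)
  rintro ⟨k, hk⟩
  have h1 : k < 8 := by nlinarith
  have h2 : -8 < k := by nlinarith
  interval_cases k <;> omega

/-- of the two numbers `l (l + x)`, `l (l + y)` one is not a square -/
lemma nsq_two {x y l : ℤ} (hl : l = 1 ∨ l = 2) (hx : 1 ≤ x) (hy : 1 ≤ y) (hxy : x ≠ y)
    (h1 : x ≤ y + 2) (h2 : y ≤ x + 2) :
    ¬ IsSquare (l * (l + x)) ∨ ¬ IsSquare (l * (l + y)) := by
  by_contra hcon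
  push Not at hcon
  obtain ⟨⟨z, hz⟩, ⟨w, hw⟩⟩ := hcon
  obtain ⟨z, hz0, hz⟩ : ∃ m : ℤ, 0 ≤ m ∧ l * (l + x) = m * m :=
    ⟨|z|, abs_nonneg z, by rw [abs_mul_abs_self, hz]⟩
  obtain ⟨w, hw0, hw⟩ : ∃ m : ℤ, 0 ≤ m ∧ l * (l + y) = m * m :=
    ⟨|w|, abs_nonneg w, by rw [abs_mul_abs_self, hw]⟩
  rcases hl with rfl | rfl
  · have z2 : 2 ≤ z := by nlinarith
    have w2 : 2 ≤ w := by nlinarith
    rcases lt_trichotomy z w with h | h | h
    · nlinarith
    · apply hxy; rw [h] at hz; linarith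
    · nlinarith
  · obtain ⟨z, rfl⟩ : ∃ k, z = 2 * k := by
      rcases Int.even_or_odd' z with ⟨k, hk | hk⟩
      · exact ⟨k, hk⟩
      · exfalso
        rw [hk] at hz
        have : 2 * (2 + x) = 2 * (2 * k ^ 2 + 2 * k) + 1 := by linear_combination hz
        omega
    obtain ⟨w, rfl⟩ : ∃ k, w = 2 * k := by
      rcases Int.even_or_odd' w with ⟨k, hk | hk⟩
      · exact ⟨k, hk⟩
      · exfalso
        rw [hk] at hw
        have : 2 * (2 + y) = 2 * (2 * k ^ 2 + 2 * k) + 1 := by linear_combination hw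
        omega
    have z2 : 2 ≤ z := by nlinarith
    have w2 : 2 ≤ w := by nlinarith
    rcases lt_trichotomy z w with h | h | h
    · nlinarith
    · apply hxy; rw [h] at hz; linarith
    · nlinarith

/-- `T - A = l`, `T^2 + b = A^2 + B^2`, `T^2 + c = A^2 + (B - u)^2` -/
lemma shared {b c : ℤ} (T B l u : ℤ) (hl : l = 1 ∨ l = 2) (hu : u = 1 ∨ u = 2)
    (hb : b = B ^ 2 + l ^ 2 - 2 * l * T) (hc : c = (B - u) ^ 2 + l ^ 2 - 2 * l * T)
    (hbc : b ≠ c) : Both b c := by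
  have e1 : T ^ 2 + b = (T - l) ^ 2 + B ^ 2 := by rw [hb]; ring
  have e2 : T ^ 2 + c = (T - l) ^ 2 + (B - u) ^ 2 := by rw [hc]; ring
  have e1' : T ^ 2 + b = B ^ 2 + (T - l) ^ 2 := by rw [hb]; ring
  have e2' : T ^ 2 + c = (B - u) ^ 2 + (T - l) ^ 2 := by rw [hc]; ring
  have hBu : 2 * B ≠ u := by
    intro h
    apply hbc
    rw [hb, hc]
    have : u * (2 * B - u) = 0 := by rw [h]; ring
    linear_combination this
  by_cases hA : T = l
  · -- `A = 0`
    subst hA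
    rcases eq_or_ne B 0 with rfl | hB0
    · rcases hl with rfl | rfl <;> rcases hu with rfl | rfl <;> norm_num at hb hc <;> subst hb hc
      · exact (both_sq 0 (-1)).symm
      · exact special2
      · exact special1
      · exact (both_sq 0 (-4)).symm
    rcases eq_or_ne B u with rfl | hBu'
    · rcases hl with rfl | rfl <;> rcases hu with rfl | rfl <;> norm_num at hb hc <;> subst hb hc
      · exact both_sq 0 (-1)
      · exact special2.symm
      · exact special1.symm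
      · exact both_sq 0 (-4)
    obtain ⟨x, hx⟩ : ∃ x, x = |B| := ⟨_, rfl⟩
    obtain ⟨y, hy⟩ : ∃ y, y = |B - u| := ⟨_, rfl⟩
    have hx1 : 1 ≤ x := by rw [hx]; exact Int.one_le_abs hB0
    have hy1 : 1 ≤ y := by rw [hy]; exact Int.one_le_abs (sub_ne_zero.mpr hBu')
    have hx2 : x ^ 2 = B ^ 2 := by rw [hx, sq_abs]
    have hy2 : y ^ 2 = (B - u) ^ 2 := by rw [hy, sq_abs]
    have hxy : x ≠ y := by
      intro h
      apply hbc
      rw [hb, hc, ← hx2, ← hy2, h]
    have hl0 : 0 < T := by rcases hl with h | h <;> omega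
    have hu' : 1 ≤ u ∧ u ≤ 2 := by rcases hu with h | h <;> omega
    have d1 : x ≤ y + 2 := by
      rw [hx, hy]
      rcases abs_cases B with h | h <;> rcases abs_cases (B - u) with h' | h' <;> omega
    have d2 : y ≤ x + 2 := by
      rw [hx, hy]
      rcases abs_cases B with h | h <;> rcases abs_cases (B - u) with h' | h' <;> omega
    rcases nsq_two hl hx1 hy1 hxy d1 d2 with h | h
    · -- role of `b`: the coordinate `-x`
      refine (start T 0 (B - u) (-x) 0 ?_ ?_ ?_ ?_ (sub_ne_zero.mpr hBu')).symm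
      · rw [hc]; ring
      · rw [hb, ← hx2]; ring
      · rw [sub_zero, sub_neg_eq_add]; positivity
      · rw [sub_zero, sub_neg_eq_add]; exact h
    · refine start T 0 B (-y) 0 ?_ ?_ ?_ ?_ hB0
      · rw [hb]; ring
      · rw [hc, ← hy2]; ring
      · rw [sub_zero, sub_neg_eq_add]; positivity
      · rw [sub_zero, sub_neg_eq_add]; exact h
  have hA' : T - l ≠ 0 := sub_ne_zero.mpr hA
  -- first choice
  by_cases h1 : 0 < (T - B) * (T - B + u)
  · refine start T B (T - l) (B - u) (T - l) e1' e2' ?_ ?_ hA'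
    · rw [show (T - B) * (T - (B - u)) = (T - B) * (T - B + u) by ring]; exact h1
    · rw [show (T - B) * (T - (B - u)) = (T - B) * (T - B + u) by ring]
      exact nsq_shift hu h1
  -- second choice
  by_cases h2 : 0 < (T + B - u) * (T + B - u + u)
  · refine start T (-B) (T - l) (-(B - u)) (T - l) (by rw [hb]; ring) (by rw [hc]; ring) ?_ ?_ hA'
    · rw [show (T - -B) * (T - -(B - u)) = (T + B - u) * (T + B - u + u) by ring]; exact h2
    · rw [show (T - -B) * (T - -(B - u)) = (T + B - u) * (T + B - u + u) by ring]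
      exact nsq_shift hu h2
  -- remaining: `T = 0` and `B = 0` or `B = u`
  have h3 : -u ≤ T - B ∧ T - B ≤ 0 := by
    rcases hu with rfl | rfl <;> constructor <;> by_contra hcon <;> apply h1 <;> nlinarith
  have h4 : 0 ≤ T + B ∧ T + B ≤ u := by
    rcases hu with rfl | rfl <;> constructor <;> by_contra hcon <;> apply h2 <;> nlinarith
  have hT : T = 0 ∧ (B = 0 ∨ B = u) := by
    rcases hu with rfl | rfl <;> omega
  obtain ⟨rfl, hB⟩ := hT
  rcases hB with rfl | rfl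
  · have : b = l ^ 2 := by rw [hb]; ring
    rw [this]; exact both_sq l c
  · have : c = l ^ 2 := by rw [hc]; ring
    rw [this]; exact (both_sq l b).symm

/-- `T^2 + b = (T - 4)^2 + B^2`, `T^2 + c = (T - 1)^2 + D^2`, `B = 2 D - 1` -/
lemma unshared {b c : ℤ} (T D : ℤ) (hb : b = (2 * D - 1) ^ 2 + 16 - 8 * T)
    (hc : c = D ^ 2 + 1 - 2 * T) (hT : T % 2 = 1) (hD : D % 2 = 0) : Both b c := by
  have hB : 2 * D - 1 ≠ 0 := by omega
  rcases lt_or_ge T 0 with h | h
  · -- `T < 0`: coordinates `T + A`, `T + C`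
    refine start T (-(T - 4)) (2 * D - 1) (-(T - 1)) D (by rw [hb]; ring) (by rw [hc]; ring) ?_ ?_ hB
    · nlinarith
    · rintro ⟨k, hk⟩
      obtain ⟨m, hm0, hm⟩ : ∃ m : ℤ, 0 ≤ m ∧ m * m = k * k := ⟨|k|, abs_nonneg k, abs_mul_abs_self k⟩
      rw [← hm] at hk
      -- `(2 - 2T)^2 < m^2 < (3 - 2T)^2`
      have h1 : 2 - 2 * T < m := by
        by_contra hc
        have : m * m ≤ (2 - 2 * T) * (2 - 2 * T) := by nlinarith
        nlinarith
      have h2 : m < 3 - 2 * T := by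
        by_contra hc
        have : (3 - 2 * T) * (3 - 2 * T) ≤ m * m := by nlinarith
        nlinarith
      omega
  rcases eq_or_ne T 1 with rfl | hT1
  · -- `T = 1`
    refine start 1 (2 * D - 1) (-3) D 0 (by rw [hb]; ring) (by rw [hc]; ring) ?_ ?_ (by norm_num)
    · have : (1 - (2 * D - 1)) * (1 - D) = 2 * (1 - D) ^ 2 := by ring
      rw [this]
      have : 1 - D ≠ 0 := by omega
      positivity
    · rintro ⟨k, hk⟩
      have h1 : 2 * (1 - D) ^ 2 = k * k := by linear_combination hk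
      obtain ⟨E, hE⟩ : ∃ E, 1 - D = 2 * E + 1 := ⟨(1 - D) / 2, by omega⟩
      rw [hE] at h1
      rcases Int.even_or_odd' k with ⟨j, hj | hj⟩
      · rw [hj] at h1
        have : 4 * (2 * E ^ 2 + 2 * E - j ^ 2) + 2 = 0 := by linear_combination h1
        omega
      · rw [hj] at h1
        have : 2 * (4 * E ^ 2 + 4 * E + 1 - 2 * j ^ 2 - 2 * j) = 1 := by linear_combination h1
        omega
  have hT3 : 3 ≤ T := by omega
  by_cases h1 : IsSquare (4 * (2 * T - 1))
  · -- then `2 T - 4` is not a square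
    refine start T (-(T - 4)) (2 * D - 1) (T - 1) D (by rw [hb]; ring) (by rw [hc]; ring) ?_ ?_ hB
    · nlinarith
    · rintro ⟨k, hk⟩
      obtain ⟨j, hj⟩ := h1
      obtain ⟨m, hm0, hm⟩ : ∃ m : ℤ, 0 ≤ m ∧ m * m = k * k := ⟨|k|, abs_nonneg k, abs_mul_abs_self k⟩
      obtain ⟨i, hi0, hi⟩ : ∃ m : ℤ, 0 ≤ m ∧ m * m = j * j := ⟨|j|, abs_nonneg j, abs_mul_abs_self j⟩
      rw [← hm] at hk
      rw [← hi] at hj
      obtain ⟨i, rfl⟩ : ∃ r, i = 2 * r := by
        rcases Int.even_or_odd' i with ⟨r, hr | hr⟩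
        · exact ⟨r, hr⟩
        · exfalso
          rw [hr] at hj
          have : 2 * (2 * (2 * T - 1) - 2 * r ^ 2 - 2 * r) = 1 := by linear_combination hj
          omega
      have h3 : i * i = m * m + 3 := by nlinarith
      have h4 : m < i := by nlinarith
      have h5 : i = m + 1 := by nlinarith
      have h6 : m = 1 := by rw [h5] at h3; nlinarith
      rw [h6] at hk
      have : (2 * T - 4) = 1 := by linear_combination hk
      omega
  · refine start T (T - 4) (2 * D - 1) (-(T - 1)) D (by rw [hb]; ring) (by rw [hc]; ring) ?_ ?_ hB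
    · nlinarith
    · rw [show (T - (T - 4)) * (T - -(T - 1)) = 4 * (2 * T - 1) by ring]
      exact h1

lemma special3 : Both (-1) 15 := by
  -- `161^2 - 1 = 72^2 + 144^2`, `161^2 + 15 = 40^2 + 156^2`
  refine start 161 72 144 40 156 (by norm_num) (by norm_num) (by norm_num) ?_ (by norm_num)
  rintro ⟨k, hk⟩
  obtain ⟨m, hm0, hm⟩ : ∃ m : ℤ, 0 ≤ m ∧ m * m = k * k := ⟨|k|, abs_nonneg k, abs_mul_abs_self k⟩
  rw [← hm] at hk
  have h1 : 103 < m := by nlinarith
  have h2 : m < 104 := by nlinarith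
  omega

/-- `x (x + 4)` is not a square unless it is `≤ 0` -/
lemma nsq_four {x : ℤ} (h : 0 < x * (x + 4)) : ¬ IsSquare (x * (x + 4)) := by
  rintro ⟨k, hk⟩
  obtain ⟨m, hm0, hm⟩ : ∃ m : ℤ, 0 ≤ m ∧ m * m = k * k := ⟨|k|, abs_nonneg k, abs_mul_abs_self k⟩
  obtain ⟨y, hy0, hy⟩ : ∃ y : ℤ, 0 ≤ y ∧ y * y = (x + 2) * (x + 2) :=
    ⟨|x + 2|, abs_nonneg _, abs_mul_abs_self _⟩
  rw [← hm] at hk
  have h1 : y * y = m * m + 4 := by linear_combination hy + hk
  have hm1 : 0 < m := by nlinarith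
  have h2 : m < y := by nlinarith
  rcases (show y = m + 1 ∨ m + 2 ≤ y by omega) with h3 | h3
  · rw [h3] at h1
    have : 2 * m = 3 := by linear_combination h1
    omega
  · nlinarith

/-- `T^2 + b = (T - 1)^2 + B^2`, `T^2 + c = (T - 1)^2 + (B - 4)^2`, `B` even, `T` odd -/
lemma shared4 {b c : ℤ} (T B : ℤ) (hB : B % 2 = 0) (hT : T % 2 = 1)
    (hb : b = B ^ 2 + 1 - 2 * T) (hc : c = (B - 4) ^ 2 + 1 - 2 * T) (hbc : b ≠ c) : Both b c := by
  have hBu : B ≠ 2 := by
    rintro rfl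
    apply hbc
    rw [hb, hc]; norm_num
  by_cases hA : T = 1
  · subst hA
    rcases eq_or_ne B 0 with rfl | hB0
    · norm_num at hb hc; subst hb hc; exact special3
    rcases eq_or_ne B 4 with rfl | hB4
    · norm_num at hb hc; subst hb hc; exact special3.symm
    obtain ⟨x, hx⟩ : ∃ x, x = |B| := ⟨_, rfl⟩
    obtain ⟨y, hy⟩ : ∃ y, y = |B - 4| := ⟨_, rfl⟩
    have hx1 : 2 ≤ x ∧ x % 2 = 0 := by
      rw [hx]; rcases abs_cases B with h | h <;> omega
    have hy1 : 2 ≤ y ∧ y % 2 = 0 := by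
      rw [hy]; rcases abs_cases (B - 4) with h | h <;> omega
    have hx2 : x ^ 2 = B ^ 2 := by rw [hx, sq_abs]
    have hy2 : y ^ 2 = (B - 4) ^ 2 := by rw [hy, sq_abs]
    have hxy : x ≠ y := by
      intro h
      apply hbc
      rw [hb, hc, ← hx2, ← hy2, h]
    have d1 : x ≤ y + 4 ∧ y ≤ x + 4 := by
      rw [hx, hy]
      rcases abs_cases B with h | h <;> rcases abs_cases (B - 4) with h' | h' <;> omega
    have hns : ¬ IsSquare (1 + x) ∨ ¬ IsSquare (1 + y) := by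
      by_contra hcon
      push Not at hcon
      obtain ⟨⟨z, hz⟩, ⟨w, hw⟩⟩ := hcon
      obtain ⟨z, hz0, hz⟩ : ∃ m : ℤ, 0 ≤ m ∧ 1 + x = m * m :=
        ⟨|z|, abs_nonneg z, by rw [abs_mul_abs_self, hz]⟩
      obtain ⟨w, hw0, hw⟩ : ∃ m : ℤ, 0 ≤ m ∧ 1 + y = m * m :=
        ⟨|w|, abs_nonneg w, by rw [abs_mul_abs_self, hw]⟩
      have z2 : 2 ≤ z := by nlinarith
      have w2 : 2 ≤ w := by nlinarith
      rcases lt_trichotomy z w with h | h | h
      · nlinarith
      · apply hxy; rw [h] at hz; linarith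
      · nlinarith
    rcases hns with h | h
    · refine (start 1 0 (B - 4) (-x) 0 ?_ ?_ ?_ ?_ (sub_ne_zero.mpr hB4)).symm
      · rw [hc]; ring
      · rw [hb, ← hx2]; ring
      · rw [sub_zero, sub_neg_eq_add]; nlinarith [hx1.1]
      · rw [sub_zero, sub_neg_eq_add, one_mul]; exact h
    · refine start 1 0 B (-y) 0 ?_ ?_ ?_ ?_ hB0
      · rw [hb]; ring
      · rw [hc, ← hy2]; ring
      · rw [sub_zero, sub_neg_eq_add]; nlinarith [hy1.1]
      · rw [sub_zero, sub_neg_eq_add, one_mul]; exact h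
  have hA' : T - 1 ≠ 0 := sub_ne_zero.mpr hA
  by_cases h1 : 0 < (T - B) * (T - B + 4)
  · refine start T B (T - 1) (B - 4) (T - 1) (by rw [hb]; ring) (by rw [hc]; ring) ?_ ?_ hA'
    · rw [show (T - B) * (T - (B - 4)) = (T - B) * (T - B + 4) by ring]; exact h1
    · rw [show (T - B) * (T - (B - 4)) = (T - B) * (T - B + 4) by ring]
      exact nsq_four h1
  by_cases h2 : 0 < (T + B - 4) * (T + B - 4 + 4)
  · refine start T (-B) (T - 1) (-(B - 4)) (T - 1) (by rw [hb]; ring) (by rw [hc]; ring) ?_ ?_ hA'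
    · rw [show (T - -B) * (T - -(B - 4)) = (T + B - 4) * (T + B - 4 + 4) by ring]; exact h2
    · rw [show (T - -B) * (T - -(B - 4)) = (T + B - 4) * (T + B - 4 + 4) by ring]
      exact nsq_four h2
  exfalso
  have h3 : -4 ≤ T - B ∧ T - B ≤ 0 := by
    constructor <;> by_contra hcon <;> apply h1 <;> nlinarith
  have h4 : 0 ≤ T + B ∧ T + B ≤ 4 := by
    constructor <;> by_contra hcon <;> apply h2 <;> nlinarith
  omega

/-- all classes -/
theorem both {b c : ℤ} (h : (b - c) % 16 = 0 ∨ (b % 4 = 0 ∧ c % 4 ≠ 2) ∨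
    (b % 4 = 1 ∧ c % 4 ≠ 3) ∨ b % 8 = 1) : Both b c := by
  rcases eq_or_ne b c with rfl | hbc
  · exact both_self b
  have hb4 : b % 4 = 0 ∨ b % 4 = 1 ∨ b % 4 = 2 ∨ b % 4 = 3 := by omega
  -- `u = 2`, `b = c mod 4`
  have key2 : (b - c) % 4 = 0 → b % 4 ≠ 3 → (b % 4 = 2 → (b - c) % 8 = 0) → Both b c := by
    intro h4 h5 h6
    obtain ⟨B, hB⟩ : ∃ B, b - c = 4 * (B - 1) := ⟨(b - c) / 4 + 1, by omega⟩
    have hsq : B % 2 = 0 → ∃ e, B ^ 2 = 4 * e := fun h => by
      obtain ⟨k, rfl⟩ : ∃ k, B = 2 * k := ⟨B / 2, by omega⟩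
      exact ⟨k ^ 2, by ring⟩
    have hsq' : B % 2 = 1 → ∃ e, B ^ 2 = 4 * e + 1 := fun h => by
      obtain ⟨k, hk⟩ : ∃ k, B = 2 * k + 1 := ⟨B / 2, by omega⟩
      exact ⟨k ^ 2 + k, by rw [hk]; ring⟩
    have l1 : (B ^ 2 - b) % 2 = 1 → Both b c := fun h7 => by
      obtain ⟨T, hT⟩ : ∃ T, B ^ 2 - b + 1 = 2 * T := ⟨(B ^ 2 - b + 1) / 2, by omega⟩
      exact shared T B 1 2 (Or.inl rfl) (Or.inr rfl) (by linear_combination (-1 : ℤ) * hT)
        (by linear_combination (-1 : ℤ) * hT - hB) hbc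
    have l2 : (B ^ 2 - b) % 4 = 0 → Both b c := fun h7 => by
      obtain ⟨T, hT⟩ : ∃ T, B ^ 2 - b + 4 = 4 * T := ⟨(B ^ 2 - b + 4) / 4, by omega⟩
      exact shared T B 2 2 (Or.inr rfl) (Or.inr rfl) (by linear_combination (-1 : ℤ) * hT)
        (by linear_combination (-1 : ℤ) * hT - hB) hbc
    rcases (show B % 2 = 0 ∨ B % 2 = 1 by omega) with h8 | h8
    · obtain ⟨e, he⟩ := hsq h8
      rcases hb4 with h | h | h | h
      · exact l2 (by omega)
      · exact l1 (by omega)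
      · exfalso; have := h6 h; omega
      · exact absurd h h5
    · obtain ⟨e, he⟩ := hsq' h8
      rcases hb4 with h | h | h | h
      · exact l1 (by omega)
      · exact l2 (by omega)
      · exact l1 (by omega)
      · exact absurd h h5
  -- `u = 1`, `b - c` odd
  have key1 : (b - c) % 2 = 1 → (b % 4 = 0 ∧ c % 4 ≠ 2) ∨ (b % 4 = 1 ∧ c % 4 ≠ 3) → Both b c := by
    intro h4 h5
    obtain ⟨B, hB⟩ : ∃ B, b - c = 2 * B - 1 := ⟨(b - c + 1) / 2, by omega⟩
    have hsq : B % 2 = 0 → ∃ e, B ^ 2 = 4 * e := fun h => by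
      obtain ⟨k, rfl⟩ : ∃ k, B = 2 * k := ⟨B / 2, by omega⟩
      exact ⟨k ^ 2, by ring⟩
    have hsq' : B % 2 = 1 → ∃ e, B ^ 2 = 4 * e + 1 := fun h => by
      obtain ⟨k, hk⟩ : ∃ k, B = 2 * k + 1 := ⟨B / 2, by omega⟩
      exact ⟨k ^ 2 + k, by rw [hk]; ring⟩
    have l1 : (B ^ 2 - b) % 2 = 1 → Both b c := fun h7 => by
      obtain ⟨T, hT⟩ : ∃ T, B ^ 2 - b + 1 = 2 * T := ⟨(B ^ 2 - b + 1) / 2, by omega⟩
      exact shared T B 1 1 (Or.inl rfl) (Or.inl rfl) (by linear_combination (-1 : ℤ) * hT)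
        (by linear_combination (-1 : ℤ) * hT - hB) hbc
    have l2 : (B ^ 2 - b) % 4 = 0 → Both b c := fun h7 => by
      obtain ⟨T, hT⟩ : ∃ T, B ^ 2 - b + 4 = 4 * T := ⟨(B ^ 2 - b + 4) / 4, by omega⟩
      exact shared T B 2 1 (Or.inr rfl) (Or.inl rfl) (by linear_combination (-1 : ℤ) * hT)
        (by linear_combination (-1 : ℤ) * hT - hB) hbc
    rcases (show B % 2 = 0 ∨ B % 2 = 1 by omega) with h8 | h8
    · obtain ⟨e, he⟩ := hsq h8
      rcases h5 with h | h
      · exact l2 (by omega)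
      · exact l1 (by omega)
    · obtain ⟨e, he⟩ := hsq' h8
      rcases h5 with h | h
      · exact l1 (by omega)
      · exact l2 (by omega)
  rcases h with h | h | h | h
  · -- `b = c mod 16`
    rcases (show b % 4 = 3 ∨ b % 4 ≠ 3 by omega) with h3 | h3
    · obtain ⟨B, hB, hBe⟩ : ∃ B, b - c = 8 * (B - 2) ∧ B % 2 = 0 :=
        ⟨(b - c) / 8 + 2, by omega, by omega⟩
      obtain ⟨e, he⟩ : ∃ e, B ^ 2 = 4 * e := by
        obtain ⟨k, rfl⟩ : ∃ k, B = 2 * k := ⟨B / 2, by omega⟩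
        exact ⟨k ^ 2, by ring⟩
      obtain ⟨T, hT⟩ : ∃ T, B ^ 2 - b + 1 = 2 * T := ⟨(B ^ 2 - b + 1) / 2, by omega⟩
      exact shared4 T B hBe (by omega) (by linear_combination (-1 : ℤ) * hT)
        (by linear_combination (-1 : ℤ) * hT - hB) hbc
    · exact key2 (by omega) h3 (by omega)
  · rcases (show (b - c) % 2 = 1 ∨ (b - c) % 4 = 0 by omega) with h1 | h1
    · exact key1 h1 (Or.inl h)
    · exact key2 h1 (by omega) (by omega)
  · rcases (show (b - c) % 2 = 1 ∨ (b - c) % 4 = 0 by omega) with h1 | h1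
    · exact key1 h1 (Or.inr h)
    · exact key2 h1 (by omega) (by omega)
  · -- `b = 1 mod 8`
    rcases (show c % 4 = 3 ∨ c % 4 ≠ 3 by omega) with h3 | h3
    · obtain ⟨D, hD⟩ : ∃ D, 4 * c - b + 13 = 4 * D := ⟨(4 * c - b + 13) / 4, by omega⟩
      have hD2 : D % 2 = 0 := by omega
      obtain ⟨e, he⟩ : ∃ e, D ^ 2 = 4 * e := by
        obtain ⟨k, rfl⟩ : ∃ k, D = 2 * k := ⟨D / 2, by omega⟩
        exact ⟨k ^ 2, by ring⟩
      obtain ⟨T, hT⟩ : ∃ T, D ^ 2 - c + 1 = 2 * T := ⟨(D ^ 2 - c + 1) / 2, by omega⟩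
      exact unshared T D (by linear_combination (-4 : ℤ) * hT - hD)
        (by linear_combination (-1 : ℤ) * hT) (by omega) hD2
    · rcases (show (b - c) % 2 = 1 ∨ (b - c) % 4 = 0 by omega) with h1 | h1
      · exact key1 h1 (Or.inr ⟨by omega, h3⟩)
      · exact key2 h1 (by omega) (by omega)

end Pool.Agent.Lib.MP_0ea763_nt_Sq
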